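import Mathlib

/-!
# Lacunary series of peak functions: exponents and term by term differentiation
-/

set_option autoImplicit false

open Filter Topology Set Metric

namespace Pool.Agent.T2H76.NB

theorem exists_next (M s i : ℕ) : ∃ k : ℕ, s < k ∧
    ((M * k : ℕ) : ℝ) ^ s * 2 ^ i ≤ 2 ^ k := by
  have h1 := tendsto_pow_const_div_const_pow_of_one_lt s (r := (2 : ℝ)) one_lt_two
  have h2 : Tendsto (fun n : ℕ => (M : ℝ) ^ s * 2 ^ i * ((n : ℝ) ^ s / 2 ^ n)) atTop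
      (𝓝 ((M : ℝ) ^ s * 2 ^ i * 0)) := h1.const_mul _
  rw [mul_zero] at h2
  obtain ⟨k, hk1, hk2⟩ := ((h2.eventually_le_const one_pos).and (eventually_gt_atTop s)).exists
  refine ⟨k, hk2, ?_⟩
  have h3 : (0 : ℝ) < 2 ^ k := by positivity
  have h4 : (M : ℝ) ^ s * 2 ^ i * ((k : ℝ) ^ s / 2 ^ k) =
      (((M * k : ℕ) : ℝ) ^ s * 2 ^ i) / 2 ^ k := by
    push_cast
    rw [mul_pow]
    ring
  rw [h4, div_le_one h3] at hk1
  exact hk1

/-- the state of the recursion -/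
noncomputable def st (M : ℕ → ℕ) : ℕ → ℕ
  | 0 => 1
  | i + 1 => M i * (exists_next (M i) (st M i) i).choose

theorem exists_seq (M : ℕ → ℕ) (hM : ∀ i, 1 ≤ M i) : ∃ k : ℕ → ℕ, (∀ i, i < k i) ∧
    (∀ l i, l < i → M l * k l < k i) ∧
    ∀ l i, l < i → ((M i * k i : ℕ) : ℝ) ^ (k l) * 2 ^ i ≤ 2 ^ (k i) := by
  let k : ℕ → ℕ := fun i => (exists_next (M i) (st M i) i).choose
  have hk1 : ∀ i, st M i < k i := fun i => (exists_next (M i) (st M i) i).choose_spec.1
  have hk2 : ∀ i, ((M i * k i : ℕ) : ℝ) ^ (st M i) * 2 ^ i ≤ 2 ^ (k i) :=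
    fun i => (exists_next (M i) (st M i) i).choose_spec.2
  have hst : ∀ i, st M (i + 1) = M i * k i := fun i => rfl
  have hlt : ∀ i, st M i < st M (i + 1) := by
    intro i
    rw [hst]
    calc st M i < k i := hk1 i
      _ = 1 * k i := (one_mul _).symm
      _ ≤ M i * k i := Nat.mul_le_mul_right _ (hM i)
  have hmono : StrictMono (st M) := strictMono_nat_of_lt_succ hlt
  have hle : ∀ l i, l < i → M l * k l ≤ st M i := by
    intro l i hli
    rw [← hst]
    exact hmono.monotone hli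
  refine ⟨k, fun i => (hmono.id_le i).trans_lt (hk1 i), fun l i hli =>
    (hle l i hli).trans_lt (hk1 i), fun l i hli => ?_⟩
  have h1 : k l ≤ st M i := by
    calc k l = 1 * k l := (one_mul _).symm
      _ ≤ M l * k l := Nat.mul_le_mul_right _ (hM l)
      _ ≤ st M i := hle l i hli
  have h2 : (1 : ℝ) ≤ ((M i * k i : ℕ) : ℝ) := by
    have : 1 ≤ M i * k i := Nat.one_le_iff_ne_zero.2 (Nat.mul_ne_zero
      (Nat.one_le_iff_ne_zero.1 (hM i)) (Nat.ne_of_gt (lt_of_le_of_lt (Nat.zero_le _) (hk1 i))))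
    exact_mod_cast this
  calc ((M i * k i : ℕ) : ℝ) ^ (k l) * 2 ^ i ≤ ((M i * k i : ℕ) : ℝ) ^ (st M i) * 2 ^ i := by
        gcongr
    _ ≤ 2 ^ (k i) := hk2 i

/-- the weights decay faster than any power of the exponents -/
theorem summable_weights {M k : ℕ → ℕ} (hM : ∀ i, 1 ≤ M i) (hk0 : ∀ i, i < k i)
    (hk2 : ∀ l i, l < i → ((M i * k i : ℕ) : ℝ) ^ (k l) * 2 ^ i ≤ 2 ^ (k i)) (m : ℕ) :
    Summable fun i => ((1 : ℝ) / 2) ^ (k i) * ((M i * k i : ℕ) : ℝ) ^ m := by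
  have hN : ∀ i, (1 : ℝ) ≤ ((M i * k i : ℕ) : ℝ) := by
    intro i
    have : 1 ≤ M i * k i := Nat.one_le_iff_ne_zero.2 (Nat.mul_ne_zero
      (Nat.one_le_iff_ne_zero.1 (hM i)) (Nat.ne_of_gt (lt_of_le_of_lt (Nat.zero_le _) (hk0 i))))
    exact_mod_cast this
  have hsum : Summable fun i : ℕ => ((1 : ℝ) / 2) ^ i :=
    summable_geometric_of_lt_one (by norm_num) (by norm_num)
  refine Summable.of_norm_bounded_eventually_nat hsum ?_
  filter_upwards [eventually_gt_atTop m] with i hi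
  rw [Real.norm_of_nonneg (by positivity)]
  have h1 := hk2 m i hi
  have h2 : ((M i * k i : ℕ) : ℝ) ^ m ≤ ((M i * k i : ℕ) : ℝ) ^ (k m) :=
    pow_le_pow_right₀ (hN i) (hk0 m).le
  have h3 : ((1 : ℝ) / 2) ^ (k i) * 2 ^ (k i) = 1 := by
    rw [← mul_pow]
    norm_num
  have h4 : ((1 : ℝ) / 2) ^ i * 2 ^ i = 1 := by
    rw [← mul_pow]
    norm_num
  have h5 : (0 : ℝ) < ((1 : ℝ) / 2) ^ (k i) := by positivity
  have h6 : (0 : ℝ) < ((1 : ℝ) / 2) ^ i := by positivity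
  calc ((1 : ℝ) / 2) ^ (k i) * ((M i * k i : ℕ) : ℝ) ^ m
      ≤ ((1 : ℝ) / 2) ^ (k i) * ((M i * k i : ℕ) : ℝ) ^ (k m) := by gcongr
    _ = ((1 : ℝ) / 2) ^ (k i) * (((M i * k i : ℕ) : ℝ) ^ (k m) * 2 ^ i) * ((1 : ℝ) / 2) ^ i := by
        rw [mul_assoc, mul_assoc, mul_comm ((2 : ℝ) ^ i), h4, mul_one]
    _ ≤ ((1 : ℝ) / 2) ^ (k i) * 2 ^ (k i) * ((1 : ℝ) / 2) ^ i := by gcongr
    _ = ((1 : ℝ) / 2) ^ i := by rw [h3, one_mul]

variable {E : Type*} [NormedAddCommGroup E] [NormedSpace ℂ E]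

/-- term by term differentiation on the unit ball -/
theorem iteratedFDeriv_tsum_ball {F : ℕ → E → ℂ} (hF : ∀ i, ContDiff ℂ ⊤ (F i))
    {u : ℕ → ℕ → ℝ} (hu : ∀ m, Summable (u m))
    (hb : ∀ m i, ∀ z ∈ ball (0 : E) 1, ‖iteratedFDeriv ℂ m (F i) z‖ ≤ u m i) :
    ∀ m, ∀ z ∈ ball (0 : E) 1, iteratedFDeriv ℂ m (fun z => ∑' i, F i z) z =
      ∑' i, iteratedFDeriv ℂ m (F i) z := by
  intro m
  induction m with
  | zero =>
    intro z hz
    have hs : Summable fun i => F i z := by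
      refine Summable.of_norm_bounded (hu 0) fun i => ?_
      have := hb 0 i z hz
      rwa [norm_iteratedFDeriv_zero] at this
    have h1 : Summable fun i => iteratedFDeriv ℂ 0 (F i) z := by
      refine Summable.of_norm_bounded (hu 0) fun i => hb 0 i z hz
    ext v
    rw [iteratedFDeriv_zero_apply]
    have h2 := (ContinuousMultilinearMap.apply ℂ (fun _ : Fin 0 => E) ℂ v).map_tsum h1
    simp only [ContinuousMultilinearMap.apply_apply, iteratedFDeriv_zero_apply] at h2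
    exact h2.symm
  | succ m ih =>
    intro z hz
    have h0 : (0 : E) ∈ ball (0 : E) 1 := mem_ball_self one_pos
    have hd : ∀ i, ∀ y ∈ ball (0 : E) 1, HasFDerivAt (iteratedFDeriv ℂ m (F i))
        (fderiv ℂ (iteratedFDeriv ℂ m (F i)) y) y := by
      intro i y _
      have h1 : Differentiable ℂ (iteratedFDeriv ℂ m (F i)) :=
        (hF i).differentiable_iteratedFDeriv (by exact_mod_cast WithTop.coe_lt_top _)
      exact (h1 y).hasFDerivAt
    have hbd : ∀ i, ∀ y ∈ ball (0 : E) 1, ‖fderiv ℂ (iteratedFDeriv ℂ m (F i)) y‖ ≤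
        u (m + 1) i := by
      intro i y hy
      rw [norm_fderiv_iteratedFDeriv]
      exact hb (m + 1) i y hy
    have hs0 : Summable fun i => iteratedFDeriv ℂ m (F i) (0 : E) :=
      Summable.of_norm_bounded (hu m) fun i => hb m i 0 h0
    have h1 := hasFDerivAt_tsum_of_isPreconnected (hu (m + 1)) isOpen_ball
      (convex_ball (0 : E) 1).isPreconnected hd hbd h0 hs0 hz
    have h2 : iteratedFDeriv ℂ m (fun z => ∑' i, F i z) =ᶠ[𝓝 z]
        fun y => ∑' i, iteratedFDeriv ℂ m (F i) y := by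
      filter_upwards [isOpen_ball.mem_nhds hz] with y hy
      exact ih y hy
    have h3 : fderiv ℂ (iteratedFDeriv ℂ m (fun z => ∑' i, F i z)) z =
        ∑' i, fderiv ℂ (iteratedFDeriv ℂ m (F i)) z := by
      rw [h2.fderiv_eq]
      exact h1.fderiv
    rw [iteratedFDeriv_succ_eq_comp_left, Function.comp_apply, h3]
    let e := (continuousMultilinearCurryLeftEquiv ℂ (fun _ : Fin (m + 1) => E) ℂ).symm
    have h4 : e (∑' i, fderiv ℂ (iteratedFDeriv ℂ m (F i)) z) =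
        ∑' i, e (fderiv ℂ (iteratedFDeriv ℂ m (F i)) z) :=
      e.toContinuousLinearEquiv.map_tsum
    have h5 : ∀ i, e (fderiv ℂ (iteratedFDeriv ℂ m (F i)) z) = iteratedFDeriv ℂ (m + 1) (F i) z := by
      intro i
      rw [iteratedFDeriv_succ_eq_comp_left, Function.comp_apply]
    refine h4.trans ?_
    exact tsum_congr h5

end Pool.Agent.T2H76.NB
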