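import Mathlib
import Pool.Agent.T2H76.NB.A

/-!
# Bounds for the derivatives of powers of linear functions
-/

set_option autoImplicit false

open Filter Topology Set Metric

namespace Pool.Agent.T2H76.NB

theorem iteratedDeriv_affine_pow (α β : ℂ) (N : ℕ) : ∀ k : ℕ,
    iteratedDeriv k (fun x : ℂ => (α + β * x) ^ N) =
      fun x => (N.descFactorial k : ℂ) * β ^ k * (α + β * x) ^ (N - k) := by
  intro k
  induction k with
  | zero =>
    funext x
    simp [iteratedDeriv_zero]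
  | succ k ih =>
    rw [iteratedDeriv_succ, ih]
    funext x
    have h1 : HasDerivAt (fun x : ℂ => α + β * x) β x := by
      have := ((hasDerivAt_id x).const_mul β).const_add α
      simpa using this
    have h2 := (h1.pow (N - k)).const_mul ((N.descFactorial k : ℂ) * β ^ k)
    have h3 : deriv (fun x : ℂ => (N.descFactorial k : ℂ) * β ^ k * (α + β * x) ^ (N - k)) x =
      (N.descFactorial k : ℂ) * β ^ k * (((N - k : ℕ) : ℂ) * (α + β * x) ^ (N - k - 1) * β) :=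
      h2.deriv
    rw [h3, Nat.descFactorial_succ, Nat.sub_sub]
    push_cast
    ring

theorem iteratedDeriv_term (c : ℂ) (α β : ℂ) (N k : ℕ) (x : ℂ) :
    iteratedDeriv k (fun x : ℂ => c * (α + β * x) ^ N) x =
      c * ((N.descFactorial k : ℂ) * β ^ k * (α + β * x) ^ (N - k)) := by
  have h1 : ContDiffAt ℂ k (fun x : ℂ => (α + β * x) ^ N) x := by fun_prop
  have h2 := iteratedDeriv_const_smul_field c (fun x : ℂ => (α + β * x) ^ N) (n := k) (x := x)
  have h3 : iteratedDeriv k (fun x : ℂ => c * (α + β * x) ^ N) x =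
      c • iteratedDeriv k (fun x : ℂ => (α + β * x) ^ N) x := h2
  rw [h3, iteratedDeriv_affine_pow, smul_eq_mul]

theorem norm_iteratedDeriv_term_le (c : ℂ) {α β : ℂ} (N k : ℕ) {x : ℂ} (hβ : ‖β‖ ≤ 1)
    (hx : ‖α + β * x‖ ≤ 1) :
    ‖iteratedDeriv k (fun x : ℂ => c * (α + β * x) ^ N) x‖ ≤ ‖c‖ * (N : ℝ) ^ k := by
  rw [iteratedDeriv_term, norm_mul, norm_mul, norm_mul, Complex.norm_natCast, norm_pow, norm_pow]
  have h1 : (N.descFactorial k : ℝ) ≤ (N : ℝ) ^ k := by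
    exact_mod_cast Nat.descFactorial_le_pow N k
  have h2 : ‖β‖ ^ k ≤ 1 := pow_le_one₀ (norm_nonneg _) hβ
  have h3 : ‖α + β * x‖ ^ (N - k) ≤ 1 := pow_le_one₀ (norm_nonneg _) hx
  have h4 : (N.descFactorial k : ℝ) * ‖β‖ ^ k * ‖α + β * x‖ ^ (N - k) ≤ (N : ℝ) ^ k * 1 * 1 := by
    gcongr
  rw [mul_one, mul_one] at h4
  exact mul_le_mul_of_nonneg_left h4 (norm_nonneg c)

variable {E : Type*} [NormedAddCommGroup E] [InnerProductSpace ℂ E]

theorem contDiff_term (c : ℂ) (q : E) (N : ℕ) :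
    ContDiff ℂ ⊤ (fun z : E => c * (inner ℂ q z) ^ N) := by
  have h1 : ContDiff ℂ ⊤ (fun z : E => inner ℂ q z) := (innerSL ℂ q).contDiff
  exact contDiff_const.mul (h1.pow N)

theorem norm_iteratedFDeriv_term_le (c : ℂ) {q : E} (hq : ‖q‖ = 1) (N m : ℕ) {z : E}
    (hz : ‖z‖ ≤ 1) :
    ‖iteratedFDeriv ℂ m (fun z : E => c * (inner ℂ q z) ^ N) z‖ ≤ ‖c‖ * (N : ℝ) ^ m := by
  have h1 : (fun z : E => c * (inner ℂ q z) ^ N) =
      (fun x : ℂ => c * (0 + 1 * x) ^ N) ∘ (innerSL ℂ q) := by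
    funext z
    simp
  have h2 : ContDiff ℂ m (fun x : ℂ => c * (0 + 1 * x) ^ N) := by fun_prop
  rw [h1, ContinuousLinearMap.iteratedFDeriv_comp_right (innerSL ℂ q) h2 z le_rfl]
  refine (ContinuousMultilinearMap.norm_compContinuousLinearMap_le _ _).trans ?_
  have h3 : ∏ _i : Fin m, ‖innerSL ℂ q‖ = 1 := by
    rw [innerSL_apply_norm, hq]
    simp
  rw [h3, mul_one, norm_iteratedFDeriv_eq_norm_iteratedDeriv]
  apply norm_iteratedDeriv_term_le
  · simp
  · rw [zero_add, one_mul]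
    have := norm_inner_le_norm (𝕜 := ℂ) q z
    rw [hq, one_mul] at this
    exact this.trans hz

/-- the lacunary series -/
noncomputable def ser (M k : ℕ → ℕ) (q : ℕ → E) (z : E) : ℂ :=
  ∑' i, (((1 : ℝ) / 2 : ℝ) : ℂ) ^ (k i) * (inner ℂ (q i) z) ^ (M i * k i)

theorem norm_half_pow (k : ℕ) : ‖((((1 : ℝ) / 2 : ℝ) : ℂ)) ^ k‖ = ((1 : ℝ) / 2) ^ k := by
  rw [norm_pow, Complex.norm_real, Real.norm_of_nonneg (by norm_num)]

theorem ser_smooth {M k : ℕ → ℕ} {q : ℕ → E} (hq : ∀ i, ‖q i‖ = 1)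
    (hs : ∀ m, Summable fun i => ((1 : ℝ) / 2) ^ (k i) * ((M i * k i : ℕ) : ℝ) ^ m) :
    (∀ m, ∀ z ∈ ball (0 : E) 1, iteratedFDeriv ℂ m (ser M k q) z =
      ∑' i, iteratedFDeriv ℂ m
        (fun z => (((1 : ℝ) / 2 : ℝ) : ℂ) ^ (k i) * (inner ℂ (q i) z) ^ (M i * k i)) z) ∧
    (∀ m, ContinuousOn (fun z => ∑' i, iteratedFDeriv ℂ m
        (fun z => (((1 : ℝ) / 2 : ℝ) : ℂ) ^ (k i) * (inner ℂ (q i) z) ^ (M i * k i)) z)
        (closedBall (0 : E) 1)) ∧
    ContinuousOn (ser M k q) (closedBall (0 : E) 1) ∧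
    DifferentiableOn ℂ (ser M k q) (ball (0 : E) 1) := by
  have hb : ∀ m i, ∀ z ∈ closedBall (0 : E) 1, ‖iteratedFDeriv ℂ m
      (fun z => (((1 : ℝ) / 2 : ℝ) : ℂ) ^ (k i) * (inner ℂ (q i) z) ^ (M i * k i)) z‖ ≤
      ((1 : ℝ) / 2) ^ (k i) * ((M i * k i : ℕ) : ℝ) ^ m := by
    intro m i z hz
    rw [mem_closedBall_zero_iff] at hz
    have := norm_iteratedFDeriv_term_le ((((1 : ℝ) / 2 : ℝ) : ℂ) ^ (k i)) (hq i) (M i * k i) m hz
    rwa [norm_half_pow] at this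
  have hb' : ∀ m i, ∀ z ∈ ball (0 : E) 1, ‖iteratedFDeriv ℂ m
      (fun z => (((1 : ℝ) / 2 : ℝ) : ℂ) ^ (k i) * (inner ℂ (q i) z) ^ (M i * k i)) z‖ ≤
      ((1 : ℝ) / 2) ^ (k i) * ((M i * k i : ℕ) : ℝ) ^ m := fun m i z hz =>
    hb m i z (ball_subset_closedBall hz)
  refine ⟨?_, ?_, ?_, ?_⟩
  · exact iteratedFDeriv_tsum_ball (fun i => contDiff_term _ _ _) hs hb'
  · intro m
    refine continuousOn_tsum (fun i => ?_) (hs m) (fun i z hz => hb m i z hz)
    exact ((contDiff_term _ _ _).continuous_iteratedFDeriv (by exact_mod_cast le_top)).continuousOn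
  · refine continuousOn_tsum (fun i => ?_) (hs 0) (fun i z hz => ?_)
    · exact (contDiff_term _ _ _).continuous.continuousOn
    · have := hb 0 i z hz
      rwa [norm_iteratedFDeriv_zero] at this
  · intro z hz
    have h0 : (0 : E) ∈ ball (0 : E) 1 := mem_ball_self one_pos
    have h1 := hasFDerivAt_tsum_of_isPreconnected (𝕜 := ℂ) (hs 1) isOpen_ball
      (convex_ball (0 : E) 1).isPreconnected
      (f := fun i z => (((1 : ℝ) / 2 : ℝ) : ℂ) ^ (k i) * (inner ℂ (q i) z) ^ (M i * k i))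
      (f' := fun i z => fderiv ℂ
        (fun z => (((1 : ℝ) / 2 : ℝ) : ℂ) ^ (k i) * (inner ℂ (q i) z) ^ (M i * k i)) z)
      (fun i y _ => ((contDiff_term _ _ _).differentiable (by simp) y).hasFDerivAt)
      (fun i y hy => by
        rw [← norm_iteratedFDeriv_one]
        exact hb' 1 i y hy) h0
      (Summable.of_norm_bounded (hs 0) fun i => by
        have := hb' 0 i 0 h0
        rwa [norm_iteratedFDeriv_zero] at this) hz
    exact h1.differentiableAt.differentiableWithinAt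

end Pool.Agent.T2H76.NB
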