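import Mathlib
import Pool.Agent.T2H76.NB.B

/-!
# Restrictions to affine discs are nowhere continuable
-/

set_option autoImplicit false

open Filter Topology Set Metric

namespace Pool.Agent.T2H76.NB

variable {E : Type*} [NormedAddCommGroup E] [InnerProductSpace ℂ E]

/-- geometry of affine discs with boundary in the sphere -/
theorem disc_geometry {a b : E} (hT : ∀ x : ℂ, ‖x‖ = 1 → ‖a + x • b‖ = 1) :
    inner ℂ a b = (0 : ℂ) ∧ ‖a‖ ^ 2 + ‖b‖ ^ 2 = 1 := by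
  have h1 : ∀ x : ℂ, ‖x‖ = 1 → ‖a‖ ^ 2 + 2 * (x * inner ℂ a b).re + ‖b‖ ^ 2 = 1 := by
    intro x hx
    have h2 := norm_add_sq (𝕜 := ℂ) a (x • b)
    rw [hT x hx, norm_smul, hx, one_mul, inner_smul_right] at h2
    have h3 : RCLike.re (x * inner ℂ a b) = (x * inner ℂ a b).re := rfl
    rw [h3] at h2
    linarith
  have e1 := h1 1 (by simp)
  have e2 := h1 (-1) (by simp)
  have e3 := h1 Complex.I (by simp)
  have e4 := h1 (-Complex.I) (by simp)
  rw [one_mul] at e1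
  rw [neg_one_mul, Complex.neg_re] at e2
  rw [neg_mul, Complex.neg_re] at e4
  have e5 : (Complex.I * inner ℂ a b).re = -(inner ℂ a b : ℂ).im := by
    simp [Complex.mul_re]
  rw [e5] at e3 e4
  constructor
  · apply Complex.ext
    · rw [Complex.zero_re]
      linarith
    · rw [Complex.zero_im]
      linarith
  · linarith

theorem disc_norm_le {a b : E} (hT : ∀ x : ℂ, ‖x‖ = 1 → ‖a + x • b‖ = 1) {x : ℂ} (hx : ‖x‖ ≤ 1) :
    ‖a + x • b‖ ≤ 1 := by
  obtain ⟨h1, h2⟩ := disc_geometry hT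
  have h3 := norm_add_sq (𝕜 := ℂ) a (x • b)
  rw [norm_smul, inner_smul_right, h1, mul_zero, map_zero, mul_zero, add_zero, mul_pow] at h3
  have h4 : ‖x‖ ^ 2 ≤ 1 := pow_le_one₀ (norm_nonneg _) hx
  have h5 : ‖a + x • b‖ ^ 2 ≤ 1 := by
    have h6 : 0 ≤ ‖b‖ ^ 2 := by positivity
    nlinarith
  have h6 := norm_nonneg (a + x • b)
  nlinarith

theorem arith {C ρ ε : ℝ} (hC : 0 ≤ C) (hρ : 0 < ρ) (hε : 0 < ε) {m K : ℕ} (hK : 1 ≤ K)
    (hm : (C + 3) * (1 / ρ + 1) ≤ (m + 1) * ε / 4)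
    (h : (K * ((m + 1) * ε / 4)) ^ K ≤ K.factorial * C / ρ ^ K + 2) : False := by
  set X : ℝ := (m + 1) * ε / 4 with hX
  have hXpos : 0 ≤ X := by positivity
  have h0 : 0 ≤ (1 : ℝ) / ρ := by positivity
  have h1 : (C + 3) * (1 / ρ + 1) ^ K ≤ X ^ K := by
    calc (C + 3) * (1 / ρ + 1) ^ K ≤ (C + 3) ^ K * (1 / ρ + 1) ^ K := by
          gcongr
          exact le_self_pow₀ (by linarith) (by omega)
      _ = ((C + 3) * (1 / ρ + 1)) ^ K := (mul_pow _ _ _).symm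
      _ ≤ X ^ K := pow_le_pow_left₀ (by positivity) hm K
  have h2 : (1 / ρ) ^ K ≤ (1 / ρ + 1) ^ K := pow_le_pow_left₀ h0 (by linarith) K
  have h3 : 1 ≤ (1 / ρ + 1) ^ K := one_le_pow₀ (by linarith)
  have h4 : C * (1 / ρ) ^ K + 3 ≤ X ^ K := by nlinarith
  have hKK : (1 : ℝ) ≤ (K : ℝ) ^ K := one_le_pow₀ (by exact_mod_cast hK)
  have hf : (K.factorial : ℝ) ≤ (K : ℝ) ^ K := by exact_mod_cast Nat.factorial_le_pow K
  have h5 : (K.factorial : ℝ) * C / ρ ^ K ≤ (K : ℝ) ^ K * (C * (1 / ρ) ^ K) := by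
    have : (K.factorial : ℝ) * C / ρ ^ K = K.factorial * (C * (1 / ρ) ^ K) := by
      rw [div_pow, one_pow]
      ring
    rw [this]
    gcongr
  rw [mul_pow] at h
  have h6 : (K : ℝ) ^ K * (C * (1 / ρ) ^ K + 3) ≤ (K : ℝ) ^ K * X ^ K := by gcongr
  nlinarith

/-- the main estimate -/
theorem no_extension {M k : ℕ → ℕ} {q : ℕ → E} (hq : ∀ i, ‖q i‖ = 1) (hM : ∀ i, 1 ≤ M i)
    (hk0 : ∀ i, i < k i) (hk1 : ∀ l i, l < i → M l * k l < k i)
    (hk2 : ∀ l i, l < i → ((M i * k i : ℕ) : ℝ) ^ (k l) * 2 ^ i ≤ 2 ^ (k i))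
    (hdense : ∀ p : E, ‖p‖ = 1 → ∀ m : ℕ, ∀ δ : ℝ, 0 < δ → ∃ j, M j = m + 2 ∧ ‖q j - p‖ < δ)
    {a b : E} (hb : b ≠ 0) (hT : ∀ x : ℂ, ‖x‖ = 1 → ‖a + x • b‖ = 1)
    {τ : ℂ} (hτ : ‖τ‖ = 1) {c : ℂ} {R : ℝ} {h : ℂ → ℂ} (hτR : τ ∈ ball c R)
    (hh : DifferentiableOn ℂ h (ball c R))
    (heq : ∀ x ∈ ball c R, ‖x‖ < 1 → h x = ser M k q (a + x • b)) : False := by
  obtain ⟨hab, hnorm⟩ := disc_geometry hT
  have hbpos : 0 < ‖b‖ := norm_pos_iff.2 hb
  have hb1 : ‖b‖ ≤ 1 := by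
    have : 0 ≤ ‖a‖ ^ 2 := by positivity
    nlinarith
  -- the disc of radius `2 ρ`
  obtain ⟨ρ, hρ, hρsub⟩ : ∃ ρ : ℝ, 0 < ρ ∧ closedBall τ (2 * ρ) ⊆ ball c R := by
    obtain ⟨r, hr, hrs⟩ := Metric.isOpen_iff.1 isOpen_ball τ hτR
    exact ⟨r / 4, by positivity, (closedBall_subset_ball (by linarith)).trans hrs⟩
  obtain ⟨C, hC⟩ := (isCompact_closedBall τ (2 * ρ)).exists_bound_of_continuousOn
    (hh.continuousOn.mono hρsub)
  have hC0 : 0 ≤ C := (norm_nonneg _).trans (hC τ (mem_closedBall_self (by positivity)))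
  -- Cauchy estimates
  have hcauchy : ∀ K : ℕ, ∀ x ∈ ball τ ρ, ‖iteratedDeriv K h x‖ ≤ K.factorial * C / ρ ^ K := by
    intro K x hx
    have hsub : closedBall x ρ ⊆ closedBall τ (2 * ρ) := by
      intro y hy
      rw [mem_closedBall] at *
      rw [mem_ball] at hx
      have := dist_triangle y x τ
      linarith
    refine Complex.norm_iteratedDeriv_le_of_forall_mem_sphere_norm_le K hρ ?_ ?_
    · apply DifferentiableOn.diffContOnCl
      rw [closure_ball _ hρ.ne']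
      exact hh.mono (hsub.trans hρsub)
    · intro z hz
      exact hC z (hsub (sphere_subset_closedBall hz))
  -- the derivatives of the series
  set α : ℕ → ℂ := fun i => inner ℂ (q i) a with hα
  set β : ℕ → ℂ := fun i => inner ℂ (q i) b with hβ
  have hαβ : ∀ i, ∀ x : ℂ, inner ℂ (q i) (a + x • b) = α i + β i * x := by
    intro i x
    rw [inner_add_right, inner_smul_right, mul_comm]
  have hβ1 : ∀ i, ‖β i‖ ≤ 1 := by
    intro i
    have := norm_inner_le_norm (𝕜 := ℂ) (q i) b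
    rw [hq, one_mul] at this
    exact this.trans hb1
  have hle1 : ∀ i, ∀ x : ℂ, ‖x‖ ≤ 1 → ‖α i + β i * x‖ ≤ 1 := by
    intro i x hx
    rw [← hαβ]
    have := norm_inner_le_norm (𝕜 := ℂ) (q i) (a + x • b)
    rw [hq, one_mul] at this
    exact this.trans (disc_norm_le hT hx)
  let w : ℕ → ℂ := fun i => (((1 : ℝ) / 2 : ℝ) : ℂ) ^ (k i)
  have hw : ∀ i, ‖w i‖ = ((1 : ℝ) / 2) ^ (k i) := fun i => norm_half_pow (k i)
  have hs := summable_weights hM hk0 hk2
  have hgfun : (fun x : ℂ => ser M k q (a + x • b)) =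
      fun x : ℂ => ∑' i, w i * (α i + β i * x) ^ (M i * k i) := by
    funext x
    simp only [ser, hαβ, w]
  have hbd : ∀ K i, ∀ x ∈ ball (0 : ℂ) 1,
      ‖iteratedDeriv K (fun x : ℂ => w i * (α i + β i * x) ^ (M i * k i)) x‖ ≤
      ((1 : ℝ) / 2) ^ (k i) * ((M i * k i : ℕ) : ℝ) ^ K := by
    intro K i x hx
    rw [mem_ball_zero_iff] at hx
    have := norm_iteratedDeriv_term_le (w i) (M i * k i) K (hβ1 i) (hle1 i x hx.le)
    rwa [hw] at this
  have hder : ∀ K : ℕ, ∀ x ∈ ball (0 : ℂ) 1,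
      iteratedDeriv K (fun x : ℂ => ser M k q (a + x • b)) x =
      ∑' i, iteratedDeriv K (fun x : ℂ => w i * (α i + β i * x) ^ (M i * k i)) x := by
    intro K x hx
    have hb' : ∀ m i, ∀ z ∈ ball (0 : ℂ) 1,
        ‖iteratedFDeriv ℂ m (fun x : ℂ => w i * (α i + β i * x) ^ (M i * k i)) z‖ ≤
        ((1 : ℝ) / 2) ^ (k i) * ((M i * k i : ℕ) : ℝ) ^ m := by
      intro m i z hz
      rw [norm_iteratedFDeriv_eq_norm_iteratedDeriv]
      exact hbd m i z hz
    have h1 := iteratedFDeriv_tsum_ball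
      (F := fun i (x : ℂ) => w i * (α i + β i * x) ^ (M i * k i))
      (fun i => by fun_prop) hs hb' K x hx
    have h2 : Summable fun i =>
        iteratedFDeriv ℂ K (fun x : ℂ => w i * (α i + β i * x) ^ (M i * k i)) x :=
      Summable.of_norm_bounded (hs K) fun i => hb' K i x hx
    have h3 := (ContinuousMultilinearMap.apply ℂ (fun _ : Fin K => ℂ) ℂ (fun _ => 1)).map_tsum h2
    simp only [ContinuousMultilinearMap.apply_apply] at h3
    rw [hgfun, iteratedDeriv_eq_iteratedFDeriv, h1, h3]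
    simp only [iteratedDeriv_eq_iteratedFDeriv]
  -- choice of the index
  set ε : ℝ := ‖b‖ ^ 2 / 2 with hε
  have hεpos : 0 < ε := by positivity
  obtain ⟨m, hm⟩ : ∃ m : ℕ, (C + 3) * (1 / ρ + 1) ≤ (m + 1) * ε / 4 := by
    obtain ⟨m, hm⟩ := exists_nat_ge ((C + 3) * (1 / ρ + 1) * 4 / ε)
    refine ⟨m, ?_⟩
    rw [div_le_iff₀ hεpos] at hm
    nlinarith
  set p : E := a + τ • b with hp
  have hp1 : ‖p‖ = 1 := hT τ hτ
  obtain ⟨j, hjM, hjq⟩ := hdense p hp1 m (min (1 / (2 * ((m : ℝ) + 2))) (‖b‖ / 2))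
    (lt_min (by positivity) (by positivity))
  have hjq1 : ‖q j - p‖ < 1 / (2 * ((m : ℝ) + 2)) := hjq.trans_le (min_le_left _ _)
  have hjq2 : ‖q j - p‖ < ‖b‖ / 2 := hjq.trans_le (min_le_right _ _)
  have hβj : ε ≤ ‖β j‖ := by
    have e1 : inner ℂ p b = (starRingEnd ℂ) τ * (‖b‖ ^ 2 : ℝ) := by
      rw [hp, inner_add_left, hab, zero_add, inner_smul_left, inner_self_eq_norm_sq_to_K]
      push_cast
      rfl
    have e2 : ‖(inner ℂ p b : ℂ)‖ = ‖b‖ ^ 2 := by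
      rw [e1, norm_mul, Complex.norm_conj, hτ, one_mul, Complex.norm_real,
        Real.norm_of_nonneg (by positivity)]
    have e3 : β j = inner ℂ p b + inner ℂ (q j - p) b := by
      rw [← inner_add_left, add_sub_cancel]
    have e4 : ‖(inner ℂ (q j - p) b : ℂ)‖ ≤ ‖q j - p‖ * ‖b‖ := norm_inner_le_norm _ _
    have e5 : ‖(inner ℂ p b : ℂ)‖ - ‖(inner ℂ (q j - p) b : ℂ)‖ ≤ ‖β j‖ := by
      rw [e3]
      have := norm_sub_norm_le (inner ℂ p b : ℂ) (-(inner ℂ (q j - p) b : ℂ))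
      rwa [norm_neg, sub_neg_eq_add] at this
    rw [e2] at e5
    nlinarith
  have hαj : 1 - 1 / (2 * ((m : ℝ) + 2)) < ‖α j + β j * τ‖ := by
    rw [← hαβ]
    have e1 : ‖(inner ℂ p p : ℂ)‖ = 1 := by
      rw [inner_self_eq_norm_sq_to_K, hp1]
      simp
    have e3 : (inner ℂ (q j) p : ℂ) = inner ℂ p p + inner ℂ (q j - p) p := by
      rw [← inner_add_left, add_sub_cancel]
    have e4 : ‖(inner ℂ (q j - p) p : ℂ)‖ ≤ ‖q j - p‖ * ‖p‖ := norm_inner_le_norm _ _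
    rw [hp1, mul_one] at e4
    have e5 : ‖(inner ℂ p p : ℂ)‖ - ‖(inner ℂ (q j - p) p : ℂ)‖ ≤ ‖(inner ℂ (q j) p : ℂ)‖ := by
      rw [e3]
      have := norm_sub_norm_le (inner ℂ p p : ℂ) (-(inner ℂ (q j - p) p : ℂ))
      rwa [norm_neg, sub_neg_eq_add] at this
    rw [e1] at e5
    change _ < ‖(inner ℂ (q j) p : ℂ)‖
    linarith
  -- choice of the point
  obtain ⟨x, ⟨hxρ, hxα⟩, hx1⟩ : ∃ x : ℂ, (x ∈ ball τ ρ ∧
      1 - 1 / (2 * ((m : ℝ) + 2)) < ‖α j + β j * x‖) ∧ x ∈ ball (0 : ℂ) 1 := by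
    have hcl : τ ∈ closure (ball (0 : ℂ) 1) := by
      rw [closure_ball _ one_ne_zero, mem_closedBall_zero_iff, hτ]
    have hc : ContinuousAt (fun x : ℂ => ‖α j + β j * x‖) τ := by fun_prop
    have hnh : {x : ℂ | x ∈ ball τ ρ ∧
        1 - 1 / (2 * ((m : ℝ) + 2)) < ‖α j + β j * x‖} ∈ 𝓝 τ :=
      (ball_mem_nhds τ hρ |> fun h1 => Filter.inter_mem h1 (hc.eventually_const_lt hαj))
    obtain ⟨x, hx, hx'⟩ := mem_closure_iff_nhds.1 hcl _ hnh
    exact ⟨x, hx, hx'⟩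
  -- the two estimates
  have hK : 1 ≤ k j := lt_of_le_of_lt (Nat.zero_le _) (hk0 j)
  set K := k j with hKdef
  have hupper : ‖iteratedDeriv K (fun x : ℂ => ser M k q (a + x • b)) x‖ ≤
      K.factorial * C / ρ ^ K := by
    have e1 : (fun x : ℂ => ser M k q (a + x • b)) =ᶠ[𝓝 x] h := by
      have hx2 : x ∈ ball c R := hρsub (ball_subset_closedBall (ball_subset_ball (by linarith) hxρ))
      filter_upwards [isOpen_ball.mem_nhds hx2, isOpen_ball.mem_nhds hx1] with y hy1 hy2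
      rw [mem_ball_zero_iff] at hy2
      exact (heq y hy1 hy2).symm
    rw [e1.iteratedDeriv_eq]
    exact hcauchy K x hxρ
  let t : ℕ → ℂ := fun i => iteratedDeriv K (fun x : ℂ => w i * (α i + β i * x) ^ (M i * k i)) x
  have ht : Summable t := Summable.of_norm_bounded (hs K) fun i => hbd K i x hx1
  have hrest : ‖∑' i, ite (i = j) 0 (t i)‖ ≤ 2 := by
    refine tsum_of_norm_bounded hasSum_geometric_two fun i => ?_
    by_cases hij : i = j
    · rw [if_pos hij, norm_zero]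
      positivity
    rw [if_neg hij]
    rcases lt_or_gt_of_ne hij with hlt | hgt
    · have e1 : t i = 0 := by
        simp only [t]
        rw [iteratedDeriv_term, Nat.descFactorial_eq_zero_iff_lt.2 (hk1 i j hlt)]
        simp
      rw [e1, norm_zero]
      positivity
    · refine (hbd K i x hx1).trans ?_
      have e1 := hk2 j i hgt
      have e3 : ((1 : ℝ) / 2) ^ (k i) * 2 ^ (k i) = 1 := by
        rw [← mul_pow]
        norm_num
      have e4 : ((1 : ℝ) / 2) ^ i * 2 ^ i = 1 := by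
        rw [← mul_pow]
        norm_num
      calc ((1 : ℝ) / 2) ^ (k i) * ((M i * k i : ℕ) : ℝ) ^ K
          = ((1 : ℝ) / 2) ^ (k i) * (((M i * k i : ℕ) : ℝ) ^ (k j) * 2 ^ i) *
            ((1 : ℝ) / 2) ^ i := by
            rw [mul_assoc, mul_assoc, mul_comm ((2 : ℝ) ^ i), e4, mul_one]
        _ ≤ ((1 : ℝ) / 2) ^ (k i) * 2 ^ (k i) * ((1 : ℝ) / 2) ^ i := by gcongr
        _ = ((1 : ℝ) / 2) ^ i := by rw [e3, one_mul]
  have hmain : (K * ((m + 1) * ε / 4)) ^ K ≤ ‖t j‖ := by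
    simp only [t]
    rw [iteratedDeriv_term, norm_mul, hw, norm_mul, norm_mul, Complex.norm_natCast, norm_pow,
      norm_pow]
    have e1 : ((m + 1 : ℕ) * K : ℕ) ^ K ≤ (M j * K).descFactorial K := by
      refine le_trans ?_ (Nat.pow_sub_le_descFactorial (M j * K) K)
      apply Nat.pow_le_pow_left
      rw [hjM]
      have : (m + 2) * K = (m + 1) * K + K := by ring
      omega
    have e2 : (((m + 1 : ℕ) * K : ℕ) : ℝ) ^ K ≤ ((M j * K).descFactorial K : ℝ) := by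
      exact_mod_cast e1
    have hy1 : ‖α j + β j * x‖ ≤ 1 := hle1 j x (by
      rw [mem_ball_zero_iff] at hx1
      exact hx1.le)
    have e3 : ((1 : ℝ) / 2) ^ K ≤ ‖α j + β j * x‖ ^ (M j * K - K) := by
      have f1 : ‖α j + β j * x‖ ^ (M j * K) ≤ ‖α j + β j * x‖ ^ (M j * K - K) :=
        pow_le_pow_of_le_one (norm_nonneg _) hy1 (Nat.sub_le _ _)
      have f2 : (1 : ℝ) / 2 ≤ ‖α j + β j * x‖ ^ (M j) := by
        have g1 : -2 ≤ -(1 / (2 * ((m : ℝ) + 2))) := by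
          have : 1 / (2 * ((m : ℝ) + 2)) ≤ 1 := by
            rw [div_le_one (by positivity)]
            have : (0 : ℝ) ≤ m := Nat.cast_nonneg m
            linarith
          linarith
        have g2 := one_add_mul_le_pow g1 (M j)
        have g3 : (1 : ℝ) + (M j : ℕ) * -(1 / (2 * ((m : ℝ) + 2))) = 1 / 2 := by
          rw [hjM]
          push_cast
          have : (m : ℝ) + 2 ≠ 0 := by positivity
          field_simp
          ring
        rw [g3] at g2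
        refine g2.trans ?_
        apply pow_le_pow_left₀ _ (by linarith)
        have : 1 / (2 * ((m : ℝ) + 2)) ≤ 1 := by
          rw [div_le_one (by positivity)]
          have : (0 : ℝ) ≤ m := Nat.cast_nonneg m
          linarith
        linarith
      calc ((1 : ℝ) / 2) ^ K ≤ (‖α j + β j * x‖ ^ (M j)) ^ K :=
            pow_le_pow_left₀ (by norm_num) f2 K
        _ = ‖α j + β j * x‖ ^ (M j * K) := (pow_mul _ _ _).symm
        _ ≤ _ := f1
    have e4 : ε ^ K ≤ ‖β j‖ ^ K := pow_le_pow_left₀ hεpos.le hβj K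
    calc (K * ((m + 1) * ε / 4)) ^ K
        = ((1 : ℝ) / 2) ^ K * ((((m + 1 : ℕ) * K : ℕ) : ℝ) ^ K * ε ^ K * ((1 : ℝ) / 2) ^ K) := by
          rw [← mul_pow, ← mul_pow, ← mul_pow]
          congr 1
          push_cast
          ring
      _ ≤ ((1 : ℝ) / 2) ^ K * (((M j * K).descFactorial K : ℝ) * ‖β j‖ ^ K *
          ‖α j + β j * x‖ ^ (M j * K - K)) := by
          gcongr
  have hsplit : ∑' i, t i = t j + ∑' i, ite (i = j) 0 (t i) := ht.tsum_eq_add_tsum_ite j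
  have hfinal : ‖t j‖ ≤ K.factorial * C / ρ ^ K + 2 := by
    have e1 : t j = (∑' i, t i) - ∑' i, ite (i = j) 0 (t i) := by
      rw [hsplit]
      ring
    rw [e1]
    refine (norm_sub_le _ _).trans ?_
    refine add_le_add ?_ hrest
    rw [← hder K x hx1]
    exact hupper
  exact arith hC0 hρ hεpos hK hm (hmain.trans hfinal)

end Pool.Agent.T2H76.NB
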